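import Mathlib

set_option autoImplicit false

namespace Pool.Agent.Results.MP_75529e_al.NonSemiprimeIdeal

/-- The cross product on three dimensional vectors over the field with two elements. -/
def cr (u v : Fin 3 → ZMod 2) : Fin 3 → ZMod 2 :=
  ![u 1 * v 2 + u 2 * v 1, u 2 * v 0 + u 0 * v 2, u 0 * v 1 + u 1 * v 0]

theorem two_zero (x : ZMod 2) : x + x = 0 := CharTwo.add_self_eq_zero x

theorem cr_self (u : Fin 3 → ZMod 2) : cr u u = 0 := by
  funext i
  fin_cases i <;> simp [cr, mul_comm, two_zero]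

theorem cr_comm (u v : Fin 3 → ZMod 2) : cr u v = cr v u := by
  funext i
  fin_cases i <;> simp [cr] <;> ring

theorem cr_add_left (u v w : Fin 3 → ZMod 2) : cr (u + v) w = cr u w + cr v w := by
  funext i
  fin_cases i <;> simp [cr] <;> ring

theorem cr_add_right (u v w : Fin 3 → ZMod 2) : cr u (v + w) = cr u v + cr u w := by
  funext i
  fin_cases i <;> simp [cr] <;> ring

theorem cr_zero_left (u : Fin 3 → ZMod 2) : cr 0 u = 0 := by
  funext i
  fin_cases i <;> simp [cr]

theorem cr_zero_right (u : Fin 3 → ZMod 2) : cr u 0 = 0 := by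
  funext i
  fin_cases i <;> simp [cr]

/-- The underlying set of the example, a seven dimensional space over the field with two
elements: an element is s + t x + a d, where s and t are vectors, x squares to zero, and d acts
as the derivative with respect to x. -/
structure J where
  s : Fin 3 → ZMod 2
  t : Fin 3 → ZMod 2
  a : ZMod 2

namespace J

@[ext] theorem ext' {x y : J} (h1 : x.s = y.s) (h2 : x.t = y.t) (h3 : x.a = y.a) : x = y := by
  cases x; cases y; simp_all

instance : Zero J := ⟨⟨0, 0, 0⟩⟩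
instance : Add J := ⟨fun x y => ⟨x.s + y.s, x.t + y.t, x.a + y.a⟩⟩
instance : Neg J := ⟨fun x => ⟨-x.s, -x.t, -x.a⟩⟩
instance : Mul J := ⟨fun x y =>
  ⟨cr x.s y.s + (x.a • y.t + y.a • x.t), cr x.s y.t + cr x.t y.s, 0⟩⟩

@[simp] theorem zero_s : (0 : J).s = 0 := rfl
@[simp] theorem zero_t : (0 : J).t = 0 := rfl
@[simp] theorem zero_a : (0 : J).a = 0 := rfl
@[simp] theorem add_s (x y : J) : (x + y).s = x.s + y.s := rfl
@[simp] theorem add_t (x y : J) : (x + y).t = x.t + y.t := rfl
@[simp] theorem add_a (x y : J) : (x + y).a = x.a + y.a := rfl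
@[simp] theorem neg_s (x : J) : (-x).s = -x.s := rfl
@[simp] theorem neg_t (x : J) : (-x).t = -x.t := rfl
@[simp] theorem neg_a (x : J) : (-x).a = -x.a := rfl
@[simp] theorem mul_s (x y : J) : (x * y).s = cr x.s y.s + (x.a • y.t + y.a • x.t) := rfl
@[simp] theorem mul_t (x y : J) : (x * y).t = cr x.s y.t + cr x.t y.s := rfl
@[simp] theorem mul_a (x y : J) : (x * y).a = 0 := rfl

instance instRing : NonUnitalNonAssocRing J where
  add_assoc x y z := by ext1 <;> simp [add_assoc]
  zero_add x := by ext1 <;> simp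
  add_zero x := by ext1 <;> simp
  add_comm x y := by ext1 <;> simp [add_comm]
  neg_add_cancel x := by ext1 <;> simp [two_zero]
  nsmul := nsmulRec
  zsmul := zsmulRec
  left_distrib x y z := by
    ext1
    · simp only [mul_s, add_s, add_t, add_a, cr_add_right, smul_add, add_smul]; abel
    · simp only [mul_t, add_s, add_t, cr_add_right]; abel
    · simp
  right_distrib x y z := by
    ext1
    · simp only [mul_s, add_s, add_t, add_a, cr_add_left, smul_add, add_smul]; abel
    · simp only [mul_t, add_s, add_t, cr_add_left]; abel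
    · simp
  zero_mul x := by ext1 <;> simp [cr_zero_left]
  mul_zero x := by ext1 <;> simp [cr_zero_right]

theorem comm (x y : J) : x * y = y * x := by
  ext1
  · simp only [mul_s, cr_comm x.s]; abel
  · simp only [mul_t, cr_comm x.s, cr_comm x.t]; abel
  · simp

theorem sq_zero (x : J) : x * x = 0 := by
  ext1
  · rw [mul_s, cr_self, ← add_smul, two_zero]; simp
  · rw [mul_t, cr_comm x.s]
    funext i
    exact two_zero _
  · simp

/-- For a nonzero vector s there is a vector t with s × (s × t) nonzero. -/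
theorem double_cr : ∀ s : Fin 3 → ZMod 2, s ≠ 0 → ∃ t, cr s (cr s t) ≠ 0 := by
  decide

/-- Only zero is annihilated by all cross products. -/
theorem cr_nondeg : ∀ s : Fin 3 → ZMod 2, (∀ t, cr s t = 0) → s = 0 := by
  decide

theorem semiprime (N : AddSubgroup J) (hN : ∀ r, ∀ x ∈ N, r * x ∈ N)
    (h0 : ∀ x ∈ N, ∀ y ∈ N, x * y = 0) : N = ⊥ := by
  have h1 : ∀ x ∈ N, x.t = 0 := by
    intro x hx
    by_contra hne
    have e1 : (⟨0, 0, 1⟩ : J) * x = ⟨x.t, 0, 0⟩ := by
      ext1 <;> simp [cr_zero_left]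
    have e2 : (⟨x.t, 0, 0⟩ : J) ∈ N := by rw [← e1]; exact hN _ x hx
    obtain ⟨t, ht⟩ := double_cr x.t hne
    have e3 : (⟨t, 0, 0⟩ : J) * ⟨x.t, 0, 0⟩ = ⟨cr x.t t, 0, 0⟩ := by
      ext1 <;> simp [cr_zero_left, cr_comm t]
    have e4 : (⟨cr x.t t, 0, 0⟩ : J) ∈ N := by rw [← e3]; exact hN _ _ e2
    have e5 := congrArg J.s (h0 _ e2 _ e4)
    simp only [mul_s, smul_zero, add_zero, zero_s] at e5
    exact ht e5
  have h2 : ∀ x ∈ N, x.s = 0 := by
    intro x hx
    apply cr_nondeg
    intro t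
    have e1 := h1 _ (hN ⟨0, t, 0⟩ x hx)
    simp only [mul_t, cr_zero_left, zero_add] at e1
    rw [cr_comm]; exact e1
  have h3 : ∀ x ∈ N, x.a = 0 := by
    intro x hx
    have e1 := h2 _ (hN ⟨0, fun _ => 1, 0⟩ x hx)
    have e2 := congrFun e1 0
    simpa [cr_zero_left] using e2
  rw [eq_bot_iff]
  intro x hx
  rw [AddSubgroup.mem_bot]
  exact J.ext' (h2 x hx) (h1 x hx) (h3 x hx)

end J

/-- There is a semiprime Jordan ring with an ideal that is not semiprime as a ring. -/
theorem result :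
    ∃ (J : Type) (_ : NonUnitalNonAssocRing J),
      -- J is a Jordan ring
      (∀ x y : J, x * y = y * x) ∧
      (∀ x y : J, ((x * x) * y) * x = (x * x) * (y * x)) ∧
      -- J is semiprime
      (∀ N : AddSubgroup J, (∀ r : J, ∀ x ∈ N, r * x ∈ N) →
        (∀ x ∈ N, ∀ y ∈ N, x * y = 0) → N = ⊥) ∧
      -- an ideal I of J
      ∃ I : AddSubgroup J, (∀ r : J, ∀ x ∈ I, r * x ∈ I) ∧
        -- a nonzero ideal K of the ring I whose square is zero
        ∃ K : AddSubgroup J, K ≤ I ∧ K ≠ ⊥ ∧ (∀ r ∈ I, ∀ x ∈ K, r * x ∈ K) ∧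
          (∀ x ∈ K, ∀ y ∈ K, x * y = 0) := by
  refine ⟨J, inferInstance, J.comm, ?_, J.semiprime, ?_⟩
  · intro x y
    rw [J.sq_zero, zero_mul, zero_mul, zero_mul]
  · let I : AddSubgroup J :=
      { carrier := {x | x.a = 0}
        zero_mem' := rfl
        add_mem' := by intro x y hx hy; simp_all
        neg_mem' := by intro x hx; simp_all }
    let K : AddSubgroup J :=
      { carrier := {x | x.s = 0 ∧ x.a = 0}
        zero_mem' := ⟨rfl, rfl⟩
        add_mem' := by rintro x y ⟨h1, h2⟩ ⟨h3, h4⟩; simp_all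
        neg_mem' := by rintro x ⟨h1, h2⟩; simp_all }
    refine ⟨I, fun r x _ => J.mul_a r x, K, fun x hx => hx.2, ?_, ?_, ?_⟩
    · intro h
      have h1 : (⟨0, fun _ => 1, 0⟩ : J) ∈ K := ⟨rfl, rfl⟩
      rw [h, AddSubgroup.mem_bot] at h1
      have h2 := congrFun (congrArg J.t h1) 0
      simp at h2
    · rintro r hr x ⟨hx1, hx2⟩
      have hr' : r.a = 0 := hr
      refine ⟨?_, J.mul_a r x⟩
      rw [J.mul_s, hx1, hx2, hr']
      simp [cr_zero_right]
    · rintro x ⟨hx1, hx2⟩ y ⟨hy1, hy2⟩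
      apply J.ext'
      · rw [J.mul_s, hx1, hx2, hy2]; simp [cr_zero_left]
      · rw [J.mul_t, hx1, hy1]; simp [cr_zero_left, cr_zero_right]
      · rfl

end Pool.Agent.Results.MP_75529e_al.NonSemiprimeIdeal
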